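import Mathlib

/-! Broadcasts on connected graphs: definitions and basic facts. -/

open Finset

namespace Pool.Agent.Q260.BC

section Defs

variable {V : Type*} (G : SimpleGraph V)

/-- `f` is a broadcast: `f v ≤ e(v)` for every `v`, that is, some vertex `u` has
`f v ≤ d(v,u)`. (For connected graphs.) -/
def IsBroadcast (f : V → ℕ) : Prop := ∀ v, ∃ u, f v ≤ G.dist v u

/-- `f` is dominating: every vertex `u` hears `f` from some `v` with `f v > 0`. -/
def Dominating (f : V → ℕ) : Prop := ∀ u, ∃ v, 0 < f v ∧ G.dist u v ≤ f v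

/-- `f` is a minimal dominating broadcast. -/
def MinimalDominating (f : V → ℕ) : Prop :=
  IsBroadcast G f ∧ Dominating G f ∧
    ∀ g : V → ℕ, IsBroadcast G g → (∀ v, g v ≤ f v) → Dominating G g → g = f

/-- The costs of the minimal dominating broadcasts. -/
def mdCosts [Fintype V] : Set ℕ := {w | ∃ f : V → ℕ, MinimalDominating G f ∧ ∑ v, f v = w}

/-- The upper broadcast (domination) number `Γ_b(G)`. -/
noncomputable def upperBroadcast [Fintype V] : ℕ := sSup (mdCosts G)

/-- `D` is a dominating set: every vertex is in `D` or adjacent to a vertex of `D`. -/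
def DomSet (D : Finset V) : Prop := ∀ u, ∃ v ∈ D, u = v ∨ G.Adj u v

/-- `D` is a minimal dominating set: no proper subset of `D` is dominating. -/
def MinDomSet (D : Finset V) : Prop := DomSet G D ∧ ∀ E : Finset V, E ⊂ D → ¬ DomSet G E

/-- The upper domination number `Γ(G)`. -/
noncomputable def upperDom [Fintype V] : ℕ := sSup {w | ∃ D : Finset V, MinDomSet G D ∧ D.card = w}

/-- `u` is in the private boundary of `v`: `d(u,v) ≤ f v` and `u` hears the broadcast obtained
from `f` by lowering the value at `v` by one from no vertex. -/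
def PrivateBoundary (f : V → ℕ) (v u : V) : Prop :=
  G.dist u v ≤ f v ∧ ¬ (0 < f v - 1 ∧ G.dist u v ≤ f v - 1) ∧
    ∀ w, w ≠ v → ¬ (0 < f w ∧ G.dist u w ≤ f w)

/-- `f` is an irredundant broadcast. -/
def Irredundant (f : V → ℕ) : Prop :=
  IsBroadcast G f ∧ ∀ v, 0 < f v → ∃ u, PrivateBoundary G f v u

/-- The costs of the irredundant broadcasts. -/
def irCosts [Fintype V] : Set ℕ := {w | ∃ f : V → ℕ, Irredundant G f ∧ ∑ v, f v = w}

/-- The upper broadcast irredundance number `IR_b(G)`. -/
noncomputable def upperIrredundance [Fintype V] : ℕ := sSup (irCosts G)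

end Defs

section Basic

variable {V : Type*} {G : SimpleGraph V}

/-- A function changing by at most one along edges bounds distances from below. -/
lemma lip_le_dist (hG : G.Connected) (φ : V → ℕ) (h : ∀ x y, G.Adj x y → φ x ≤ φ y + 1)
    (x y : V) : φ x ≤ φ y + G.dist x y := by
  obtain ⟨p, hp⟩ := hG.exists_walk_length_eq_dist x y
  rw [← hp]
  clear hp
  induction p with
  | nil => simp
  | cons hadj q ih =>
    rw [SimpleGraph.Walk.length_cons]
    have := h _ _ hadj
    omega

lemma dist_le_one_iff (hG : G.Connected) (x y : V) : G.dist x y ≤ 1 ↔ x = y ∨ G.Adj x y := by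
  constructor
  · intro h
    rcases Nat.lt_or_ge (G.dist x y) 1 with h0 | h1
    · left
      exact hG.dist_eq_zero_iff.1 (by omega)
    · right
      exact SimpleGraph.dist_eq_one_iff_adj.1 (by omega)
  · rintro (rfl | h)
    · simp
    · exact (SimpleGraph.dist_eq_one_iff_adj.2 h).le

lemma dist_lt_card [Fintype V] (hG : G.Connected) (x y : V) : G.dist x y < Fintype.card V := by
  classical
  obtain ⟨p, hp, hl⟩ := hG.exists_path_of_dist x y
  rw [← hl]
  exact hp.length_lt

lemma IsBroadcast.lt_card [Fintype V] (hG : G.Connected) {f : V → ℕ} (hf : IsBroadcast G f)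
    (v : V) : f v < Fintype.card V := by
  obtain ⟨u, hu⟩ := hf v
  exact lt_of_le_of_lt hu (dist_lt_card hG v u)

lemma IsBroadcast.sum_le [Fintype V] (hG : G.Connected) {f : V → ℕ} (hf : IsBroadcast G f) :
    ∑ v, f v ≤ Fintype.card V * Fintype.card V := by
  calc ∑ v, f v ≤ ∑ _v : V, Fintype.card V := Finset.sum_le_sum fun v _ => (hf.lt_card hG v).le
    _ = _ := by simp

lemma mdCosts_bddAbove [Fintype V] (hG : G.Connected) : BddAbove (mdCosts G) := by
  refine ⟨Fintype.card V * Fintype.card V, ?_⟩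
  rintro w ⟨f, hf, rfl⟩
  exact hf.1.sum_le hG

lemma irCosts_bddAbove [Fintype V] (hG : G.Connected) : BddAbove (irCosts G) := by
  refine ⟨Fintype.card V * Fintype.card V, ?_⟩
  rintro w ⟨f, hf, rfl⟩
  exact hf.1.sum_le hG

lemma le_upperBroadcast [Fintype V] (hG : G.Connected) {f : V → ℕ} (hf : MinimalDominating G f) :
    ∑ v, f v ≤ upperBroadcast G :=
  le_csSup (mdCosts_bddAbove hG) ⟨f, hf, rfl⟩

lemma le_upperIrredundance [Fintype V] (hG : G.Connected) {f : V → ℕ} (hf : Irredundant G f) :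
    ∑ v, f v ≤ upperIrredundance G :=
  le_csSup (irCosts_bddAbove hG) ⟨f, hf, rfl⟩

lemma upperDom_bddAbove [Fintype V] :
    BddAbove {w | ∃ D : Finset V, MinDomSet G D ∧ D.card = w} := by
  refine ⟨Fintype.card V, ?_⟩
  rintro w ⟨D, _, rfl⟩
  exact Finset.card_le_univ D

lemma exists_minDomSet [Fintype V] : ∃ D : Finset V, MinDomSet G D := by
  classical
  have h0 : ∃ D : Finset V, DomSet G D := ⟨Finset.univ, fun u => ⟨u, by simp, Or.inl rfl⟩⟩
  obtain ⟨D, hD, hmin⟩ : ∃ D : Finset V, DomSet G D ∧ ∀ E : Finset V, DomSet G E →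
      D.card ≤ E.card := by
    have hs : ({n | ∃ D : Finset V, DomSet G D ∧ D.card = n} : Set ℕ).Nonempty := by
      obtain ⟨D, hD⟩ := h0
      exact ⟨_, D, hD, rfl⟩
    obtain ⟨D, hD, hc⟩ := Nat.sInf_mem hs
    refine ⟨D, hD, fun E hE => ?_⟩
    rw [hc]
    exact Nat.sInf_le ⟨E, hE, rfl⟩
  refine ⟨D, hD, fun E hE hE' => ?_⟩
  have := hmin E hE'
  have := Finset.card_lt_card hE
  omega

lemma upperDom_spec [Fintype V] : ∃ D : Finset V, MinDomSet G D ∧ D.card = upperDom G := by
  have : upperDom G ∈ {w | ∃ D : Finset V, MinDomSet G D ∧ D.card = w} := by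
    apply Nat.sSup_mem _ upperDom_bddAbove
    obtain ⟨D, hD⟩ := exists_minDomSet (G := G)
    exact ⟨_, D, hD, rfl⟩
  exact this

lemma DomSet.pos [Nonempty V] {D : Finset V} (hD : DomSet G D) : 0 < D.card := by
  obtain ⟨v, hv, _⟩ := hD (Classical.arbitrary V)
  exact Finset.card_pos.2 ⟨v, hv⟩

end Basic

end Pool.Agent.Q260.BC
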