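import Mathlib
import Pool.Agent.Q260.BC.Defs

/-! Disjoint private geodesics of an irredundant broadcast. -/

open Finset

namespace Pool.Agent.Q260.BC

section Paths

variable {V : Type*} {G : SimpleGraph V}

lemma dist_seq (hG : G.Connected) {p : ℕ → V} {L : ℕ} (h : ∀ t < L, G.Adj (p t) (p (t + 1)))
    (a d : ℕ) (hL : a + d ≤ L) : G.dist (p a) (p (a + d)) ≤ d := by
  induction d with
  | zero => simp
  | succ d ih =>
    have h1 := ih (by omega)
    have h2 : G.dist (p (a + d)) (p (a + d + 1)) = 1 :=
      SimpleGraph.dist_eq_one_iff_adj.2 (h (a + d) (by omega))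
    have h3 := hG.dist_triangle (u := p a) (v := p (a + d)) (w := p (a + d + 1))
    rw [← add_assoc]
    omega

lemma exists_geod (hG : G.Connected) (v w : V) : ∃ p : ℕ → V, p 0 = v ∧
    (∀ t < G.dist v w, G.Adj (p t) (p (t + 1))) ∧
    ∀ t ≤ G.dist v w, G.dist v (p t) = t ∧ G.dist (p t) w = G.dist v w - t := by
  obtain ⟨q, hq⟩ := hG.exists_walk_length_eq_dist v w
  have hadj : ∀ t < G.dist v w, G.Adj (q.getVert t) (q.getVert (t + 1)) := by
    intro t ht
    exact q.adj_getVert_succ (by omega)
  refine ⟨q.getVert, q.getVert_zero, hadj, ?_⟩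
  intro t ht
  have h1 := dist_seq hG hadj 0 t (by omega)
  have h2 := dist_seq hG hadj t (G.dist v w - t) (by omega)
  rw [Nat.zero_add, q.getVert_zero] at h1
  have h3 : t + (G.dist v w - t) = G.dist v w := by omega
  rw [h3, ← hq, q.getVert_length, hq] at h2
  have h4 := hG.dist_triangle (u := v) (v := q.getVert t) (w := w)
  omega

/-- private vertices and geodesics -/
structure PD (G : SimpleGraph V) (f : V → ℕ) where
  w : V → V
  p : V → ℕ → V
  priv : ∀ v, 0 < f v → PrivateBoundary G f v (w v)
  p0 : ∀ v, p v 0 = v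
  padj : ∀ v, ∀ t < G.dist v (w v), G.Adj (p v t) (p v (t + 1))
  pd : ∀ v, ∀ t ≤ G.dist v (w v), G.dist v (p v t) = t ∧
    G.dist (p v t) (w v) = G.dist v (w v) - t

lemma exists_PD (hG : G.Connected) {f : V → ℕ} (hf : Irredundant G f) : Nonempty (PD G f) := by
  classical
  have h1 : ∀ v, ∃ w, 0 < f v → PrivateBoundary G f v w := by
    intro v
    by_cases hv : 0 < f v
    · obtain ⟨w, hw⟩ := hf.2 v hv
      exact ⟨w, fun _ => hw⟩
    · exact ⟨v, fun h => absurd h hv⟩
  choose w hw using h1
  choose p hp using fun v => exists_geod hG v (w v)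
  exact ⟨⟨w, p, hw, fun v => (hp v).1, fun v => (hp v).2.1, fun v => (hp v).2.2⟩⟩

variable {f : V → ℕ} (P : PD G f)

namespace PD

/-- `v` has a private vertex at distance exactly `f v` -/
def Geo (v : V) : Prop := 0 < f v ∧ G.dist v (P.w v) = f v

/-- `v` is its own private vertex -/
def Self (v : V) : Prop := f v = 1 ∧ P.w v = v

lemma geo_or_self (hG : G.Connected) {v : V} (hv : 0 < f v) : P.Geo v ∨ P.Self v := by
  obtain ⟨h1, h2, _⟩ := P.priv v hv
  rw [SimpleGraph.dist_comm] at h1 h2
  by_cases h : G.dist v (P.w v) = f v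
  · exact Or.inl ⟨hv, h⟩
  · right
    have h3 : f v = 1 := by
      by_contra hne
      apply h2
      constructor <;> omega
    refine ⟨h3, ?_⟩
    have : G.dist v (P.w v) = 0 := by omega
    exact (hG.dist_eq_zero_iff.1 this).symm

lemma not_both (hG : G.Connected) {v : V} (h1 : P.Geo v) (h2 : P.Self v) : False := by
  obtain ⟨h3, h4⟩ := h1
  obtain ⟨h5, h6⟩ := h2
  rw [h6] at h4
  simp at h4
  omega

lemma far {u v : V} (hu : 0 < f u) (hv : 0 < f v) (huv : u ≠ v) : f u < G.dist u (P.w v) := by
  obtain ⟨_, _, h3⟩ := P.priv v hv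
  have := h3 u huv
  rw [SimpleGraph.dist_comm]
  by_contra h
  exact this ⟨hu, by omega⟩

variable {P}

lemma Geo.d1 {v : V} (h : P.Geo v) {t : ℕ} (ht : t ≤ f v) : G.dist v (P.p v t) = t :=
  (P.pd v t (by rw [h.2]; exact ht)).1

lemma Geo.d2 {v : V} (h : P.Geo v) {t : ℕ} (ht : t ≤ f v) :
    G.dist (P.p v t) (P.w v) = f v - t := by
  rw [(P.pd v t (by rw [h.2]; exact ht)).2, h.2]

lemma Geo.adj {v : V} (h : P.Geo v) {t : ℕ} (ht : t < f v) :
    G.Adj (P.p v t) (P.p v (t + 1)) :=
  P.padj v t (by rw [h.2]; exact ht)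

lemma Geo.inj {v : V} (h : P.Geo v) {t t' : ℕ} (ht : t ≤ f v) (ht' : t' ≤ f v)
    (he : P.p v t = P.p v t') : t = t' := by
  rw [← h.d1 ht, ← h.d1 ht', he]

/-- adjacent vertices of different private geodesics have equal heights -/
lemma rule (hG : G.Connected) {u v : V} (hu : P.Geo u) (hv : P.Geo v) (huv : u ≠ v)
    {s t : ℕ} (hs : s ≤ f u) (ht : t ≤ f v) (hadj : G.Adj (P.p u s) (P.p v t)) :
    f u - s = f v - t := by
  have h1 := P.far hu.1 hv.1 huv
  have h2 := P.far hv.1 hu.1 huv.symm
  have h3 := hu.d1 hs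
  have h4 := hv.d1 ht
  have h5 := hu.d2 hs
  have h6 := hv.d2 ht
  have h7 : G.dist (P.p u s) (P.p v t) = 1 := SimpleGraph.dist_eq_one_iff_adj.2 hadj
  have h8 := hG.dist_triangle (u := u) (v := P.p u s) (w := P.p v t)
  have h9 := hG.dist_triangle (u := u) (v := P.p v t) (w := P.w v)
  have h10 := hG.dist_triangle (u := v) (v := P.p v t) (w := P.p u s)
  have h11 := hG.dist_triangle (u := v) (v := P.p u s) (w := P.w u)
  have h12 := SimpleGraph.dist_comm (G := G) (u := P.p u s) (v := P.p v t)
  omega

lemma disj (hG : G.Connected) {u v : V} (hu : P.Geo u) (hv : P.Geo v) (huv : u ≠ v)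
    {s t : ℕ} (hs : s ≤ f u) (ht : t ≤ f v) : P.p u s ≠ P.p v t := by
  intro he
  have h1 := P.far hu.1 hv.1 huv
  have h2 := P.far hv.1 hu.1 huv.symm
  have h3 := hu.d1 hs
  have h4 := hv.d1 ht
  have h5 := hu.d2 hs
  have h6 := hv.d2 ht
  have h9 := hG.dist_triangle (u := u) (v := P.p u s) (w := P.w v)
  have h11 := hG.dist_triangle (u := v) (v := P.p v t) (w := P.w u)
  rw [← he] at h6 h11 h4
  omega

lemma self_geo (hG : G.Connected) {u v : V} (hu : P.Geo u) (hv : P.Self v) (huv : u ≠ v)
    {s : ℕ} (hs : s ≤ f u) : v ≠ P.p u s ∧ ¬ G.Adj v (P.p u s) := by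
  have h1 := P.far hu.1 (by rw [hv.1]; norm_num : 0 < f v) huv
  have h2 := P.far (by rw [hv.1]; norm_num : 0 < f v) hu.1 huv.symm
  rw [hv.2] at h1
  rw [hv.1] at h2
  have h3 := hu.d1 hs
  have h5 := hu.d2 hs
  have h6 := hG.dist_triangle (u := u) (v := P.p u s) (w := v)
  have h7 := hG.dist_triangle (u := v) (v := P.p u s) (w := P.w u)
  have h8 := SimpleGraph.dist_comm (G := G) (u := P.p u s) (v := v)
  constructor
  · intro he
    rw [← he] at h3
    omega
  · intro hadj
    have h9 : G.dist v (P.p u s) = 1 := SimpleGraph.dist_eq_one_iff_adj.2 hadj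
    omega

lemma self_self {u v : V} (hu : P.Self u) (hv : P.Self v) (huv : u ≠ v) : ¬ G.Adj u v := by
  intro hadj
  have h1 := P.far (by rw [hu.1]; norm_num : 0 < f u) (by rw [hv.1]; norm_num : 0 < f v) huv
  rw [hv.2, hu.1, SimpleGraph.dist_eq_one_iff_adj.2 hadj] at h1
  omega

open Classical in
/-- every unit of cost gets its own vertex -/
noncomputable def cmap (P : PD G f) (x : Σ v, Fin (f v)) : V :=
  if P.Geo x.1 then P.p x.1 (x.2 + 1) else x.1

lemma cmap_inj (hG : G.Connected) (P : PD G f) : Function.Injective (cmap P) := by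
  classical
  rintro ⟨v, t⟩ ⟨u, s⟩ he
  have hv : 0 < f v := lt_of_le_of_lt (Nat.zero_le _) t.2
  have hu : 0 < f u := lt_of_le_of_lt (Nat.zero_le _) s.2
  unfold cmap at he
  simp only at he
  by_cases huv : u = v
  · subst huv
    rcases P.geo_or_self hG hu with h | h
    · rw [if_pos h, if_pos h] at he
      have := h.inj (by omega) (by omega) he
      have : t = s := Fin.ext (by omega)
      rw [this]
    · have h1 := h.1
      have : t = s := Fin.ext (by omega)
      rw [this]
  · exfalso
    rcases P.geo_or_self hG hu with h | h <;> rcases P.geo_or_self hG hv with h' | h'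
    · rw [if_pos h, if_pos h'] at he
      exact disj hG h h' huv (by omega) (by omega) he.symm
    · rw [if_pos h, if_neg (fun h0 => P.not_both hG h0 h')] at he
      exact (self_geo hG h h' huv (by omega)).1 he
    · rw [if_pos h', if_neg (fun h0 => P.not_both hG h0 h)] at he
      exact (self_geo hG h' h (Ne.symm huv) (by omega)).1 he.symm
    · rw [if_neg (fun h0 => P.not_both hG h0 h), if_neg (fun h0 => P.not_both hG h0 h')] at he
      exact huv he.symm

open Classical in
/-- the vertices carrying the cost -/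
noncomputable def D [Fintype V] (P : PD G f) : Finset V := Finset.univ.image (cmap P)

lemma card_D [Fintype V] (hG : G.Connected) (P : PD G f) : (D P).card = ∑ v, f v := by
  classical
  unfold D
  rw [Finset.card_image_of_injective _ (cmap_inj hG P)]
  simp

lemma mem_D [Fintype V] (hG : G.Connected) (P : PD G f) {x : V} (hx : x ∈ D P) :
    (∃ v t, P.Geo v ∧ 1 ≤ t ∧ t ≤ f v ∧ P.p v t = x) ∨ P.Self x := by
  classical
  unfold D at hx
  rw [Finset.mem_image] at hx
  obtain ⟨⟨v, t⟩, _, he⟩ := hx
  have hv : 0 < f v := lt_of_le_of_lt (Nat.zero_le _) t.2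
  unfold cmap at he
  simp only at he
  rcases P.geo_or_self hG hv with h | h
  · rw [if_pos h] at he
    exact Or.inl ⟨v, t + 1, h, by omega, by omega, he⟩
  · rw [if_neg (fun h0 => P.not_both hG h0 h)] at he
    right
    rw [← he]
    exact h

end PD

/-- a minimal dominating broadcast is irredundant -/
lemma MinimalDominating.irredundant {f : V → ℕ} (hf : MinimalDominating G f) :
    Irredundant G f := by
  classical
  obtain ⟨hb, hd, hmin⟩ := hf
  refine ⟨hb, ?_⟩
  intro v hv
  by_contra hcon
  push Not at hcon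
  have hle : ∀ u, Function.update f v (f v - 1) u ≤ f u := by
    intro u
    by_cases h : u = v
    · subst h; simp
    · rw [Function.update_of_ne h]
  have h1 := hmin (Function.update f v (f v - 1)) (by
    intro u
    obtain ⟨x, hx⟩ := hb u
    exact ⟨x, (hle u).trans hx⟩) hle (by
    intro u
    by_contra hno
    push Not at hno
    have hv' : ¬ (0 < f v - 1 ∧ G.dist u v ≤ f v - 1) := by
      rintro ⟨h2, h3⟩
      have := hno v (by simpa using h2)
      simp at this
      omega
    have hw' : ∀ w, w ≠ v → ¬ (0 < f w ∧ G.dist u w ≤ f w) := by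
      rintro w hw ⟨h2, h3⟩
      have := hno w (by rw [Function.update_of_ne hw]; exact h2)
      rw [Function.update_of_ne hw] at this
      omega
    obtain ⟨x, hx1, hx2⟩ := hd u
    have hxv : x = v := by
      by_contra hne
      exact hw' x hne ⟨hx1, hx2⟩
    subst hxv
    exact hcon u ⟨hx2, hv', hw'⟩)
  have h2 := congrFun h1 v
  simp at h2
  omega

/-- the cost of an irredundant broadcast is less than the number of vertices -/
lemma irredundant_lt [Fintype V] [Nontrivial V] (hG : G.Connected) {f : V → ℕ}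
    (hf : Irredundant G f) : ∑ v, f v + 1 ≤ Fintype.card V := by
  classical
  obtain ⟨P⟩ := exists_PD hG hf
  rw [← PD.card_D hG P]
  have : ∃ x, x ∉ PD.D P := by
    by_cases h : ∃ v, P.Geo v
    · obtain ⟨v, hv⟩ := h
      refine ⟨v, fun hmem => ?_⟩
      rcases PD.mem_D hG P hmem with ⟨u, t, hu, ht1, ht2, he⟩ | hs
      · by_cases huv : u = v
        · subst huv
          have := hu.d1 ht2
          rw [he] at this
          simp at this
          omega
        · exact PD.disj hG hu hv huv ht2 (Nat.zero_le _) (by rw [he, P.p0])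
      · exact P.not_both hG hv hs
    · push Not at h
      obtain ⟨a, b, hab⟩ := exists_pair_ne V
      haveI : Nonempty V := ⟨a⟩
      obtain ⟨x, y, hxy⟩ : ∃ x y, G.Adj x y := by
        obtain ⟨q⟩ := hG.preconnected a b
        cases q with
        | nil => exact absurd rfl hab
        | cons hadj _ => exact ⟨_, _, hadj⟩
      by_contra hall
      push Not at hall
      have hx : P.Self x := by
        rcases PD.mem_D hG P (hall x) with ⟨u, t, hu, _⟩ | hs
        · exact absurd hu (h u)
        · exact hs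
      have hy : P.Self y := by
        rcases PD.mem_D hG P (hall y) with ⟨u, t, hu, _⟩ | hs
        · exact absurd hu (h u)
        · exact hs
      exact PD.self_self hx hy hxy.ne hxy
  obtain ⟨x, hx⟩ := this
  have : (PD.D P).card < Fintype.card V := by
    rw [← Finset.card_univ]
    apply Finset.card_lt_card
    rw [Finset.ssubset_univ_iff]
    intro h
    exact hx (h ▸ Finset.mem_univ x)
  omega

end Paths

end Pool.Agent.Q260.BC
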