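import Mathlib
import Pool.Agent.Q260.BC.Defs
import Pool.Agent.Q260.BC.Paths

/-! `Γ_b ≥ n/2` for connected bipartite graphs. -/

open Finset

namespace Pool.Agent.Q260.BC

lemma exists_adj {V : Type*} {G : SimpleGraph V} [Nontrivial V] (hG : G.Connected) (v : V) :
    ∃ u, G.Adj v u := by
  obtain ⟨w, hw⟩ := exists_ne v
  obtain ⟨q⟩ := hG.preconnected v w
  cases q with
  | nil => exact absurd rfl hw
  | cons hadj _ => exact ⟨_, hadj⟩

lemma half_le {V : Type*} [Fintype V] [Nontrivial V] {G : SimpleGraph V} (hG : G.Connected)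
    (hc : G.Colorable 2) : Fintype.card V ≤ 2 * upperBroadcast G := by
  classical
  obtain ⟨c⟩ := hc
  have key : ∀ b : Fin 2, (Finset.univ.filter fun v => c v = b).card ≤ upperBroadcast G := by
    intro b
    have hmd : MinimalDominating G (fun v => if c v = b then 1 else 0) := by
      refine ⟨?_, ?_, ?_⟩
      · intro v
        obtain ⟨u, hu⟩ := exists_adj hG v
        refine ⟨u, ?_⟩
        rw [SimpleGraph.dist_eq_one_iff_adj.2 hu]
        change (if c v = b then 1 else 0) ≤ 1
        split_ifs <;> omega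
      · intro u
        by_cases h : c u = b
        · exact ⟨u, by simp [h], by simp⟩
        · obtain ⟨v, hv⟩ := exists_adj hG u
          have h1 := c.valid hv
          have h2 : c v = b := by
            have h3 : ∀ x y z : Fin 2, x ≠ y → x ≠ z → y = z := by decide
            exact (h3 (c u) (c v) b h1 h)
          refine ⟨v, by simp [h2], ?_⟩
          rw [SimpleGraph.dist_eq_one_iff_adj.2 hv]
          simp [h2]
      · intro g hg hle hdom
        funext v
        by_cases h : c v = b
        · obtain ⟨x, hx1, hx2⟩ := hdom v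
          have h1 := hle x
          have hx : c x = b := by
            by_contra hne
            simp [hne] at h1
            omega
          simp only [hx, if_true] at h1
          have h2 : G.dist v x ≤ 1 := by omega
          rcases (dist_le_one_iff hG v x).1 h2 with h3 | h3
          · subst h3
            simp only [h, if_true]
            omega
          · exact absurd (h.trans hx.symm) (c.valid h3)
        · have h1 := hle v
          simp only [h, if_false] at h1 ⊢
          omega
    have := le_upperBroadcast hG hmd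
    simpa [Finset.sum_ite] using this
  have h0 := key 0
  have h1 := key 1
  have h2 : (Finset.univ.filter fun v => c v = 0).card +
      (Finset.univ.filter fun v => c v = 1).card = Fintype.card V := by
    rw [← Finset.card_univ, ← Finset.card_union_of_disjoint]
    · congr 1
      ext v
      simp only [Finset.mem_union, Finset.mem_filter, Finset.mem_univ, true_and, iff_true]
      have : ∀ x : Fin 2, x = 0 ∨ x = 1 := by decide
      exact this (c v)
    · rw [Finset.disjoint_left]
      intro v hv hv'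
      simp only [Finset.mem_filter, Finset.mem_univ, true_and] at hv hv'
      rw [hv] at hv'
      exact absurd hv' (by decide)
  omega

/-- the graph: `k` levels `K_{m,m}` joined by perfect matchings, and a vertex `z_j` joined to one
side of every level -/
def HG (m k : ℕ) : SimpleGraph ((Fin m × Bool × Fin k) ⊕ Fin k) where
  Adj x y := match x, y with
    | Sum.inl x, Sum.inl y => (x.2.2 = y.2.2 ∧ x.2.1 ≠ y.2.1) ∨
        (x.1 = y.1 ∧ x.2.1 = y.2.1 ∧
          (x.2.2.val + 1 = y.2.2.val ∨ y.2.2.val + 1 = x.2.2.val))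
    | Sum.inl x, Sum.inr l => x.2.1 = false ∧ x.2.2 = l
    | Sum.inr l, Sum.inl x => x.2.1 = false ∧ x.2.2 = l
    | Sum.inr _, Sum.inr _ => False
  symm := ⟨by
    rintro (x | l) (y | l') h
    · rcases h with ⟨h1, h2⟩ | ⟨h1, h2, h3⟩
      · exact Or.inl ⟨h1.symm, h2.symm⟩
      · exact Or.inr ⟨h1.symm, h2.symm, h3.symm⟩
    · exact h
    · exact h
    · exact h⟩
  loopless := ⟨by
    rintro (x | l) h
    · rcases h with ⟨_, h2⟩ | ⟨_, _, h3⟩
      · exact h2 rfl
      · omega
    · exact h⟩

variable {m k : ℕ}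

lemma HG_colorable : (HG m k).Colorable 2 := by
  refine ⟨SimpleGraph.Coloring.mk (fun x => match x with
    | Sum.inl x => if (x.2.2.val % 2 = 0) = (x.2.1 = true) then 0 else 1
    | Sum.inr l => if (l.val % 2 = 0) then 0 else 1) ?_⟩
  rintro (⟨i, s, j⟩ | l) (⟨i', s', j'⟩ | l') h
  · rcases h with ⟨h1, h2⟩ | ⟨h1, h2, h3⟩
    · simp only at h1 h2 ⊢
      subst h1
      cases s <;> cases s' <;> by_cases hp : j.val % 2 = 0 <;> simp_all
    · simp only at h1 h2 h3 ⊢
      subst h1 h2
      have : (j.val % 2 = 0) ↔ ¬ (j'.val % 2 = 0) := by omega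
      cases s <;> by_cases hp : j'.val % 2 = 0 <;> simp_all
  · obtain ⟨h1, h2⟩ := h
    simp only at h1 h2 ⊢
    subst h1 h2
    by_cases hp : j.val % 2 = 0 <;> simp_all
  · obtain ⟨h1, h2⟩ := h
    simp only at h1 h2 ⊢
    subst h1 h2
    by_cases hp : j'.val % 2 = 0 <;> simp_all
  · exact h.elim

lemma vert (i : Fin m) (s : Bool) (d : ℕ) : ∀ (j : ℕ) (h : j + d < k),
    ∃ p : (HG m k).Walk (Sum.inl (i, s, ⟨j, by omega⟩)) (Sum.inl (i, s, ⟨j + d, h⟩)),
      p.length = d := by
  induction d with
  | zero => intro j h; exact ⟨SimpleGraph.Walk.nil, rfl⟩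
  | succ d ih =>
    intro j h
    obtain ⟨p, hp⟩ := ih j (by omega)
    have hadj : (HG m k).Adj (Sum.inl (i, s, ⟨j + d, by omega⟩))
        (Sum.inl (i, s, ⟨j + (d + 1), h⟩)) := by
      right
      exact ⟨rfl, rfl, Or.inl rfl⟩
    refine ⟨p.concat hadj, ?_⟩
    rw [SimpleGraph.Walk.length_concat, hp]

lemma vert' (i : Fin m) (s : Bool) (j j' : Fin k) :
    ∃ p : (HG m k).Walk (Sum.inl (i, s, j)) (Sum.inl (i, s, j')), p.length + 1 ≤ k := by
  rcases le_total j.val j'.val with h | h
  · obtain ⟨p, hp⟩ := vert (m := m) (k := k) i s (j'.val - j.val) j.val (by omega)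
    have e : (⟨j.val + (j'.val - j.val), by omega⟩ : Fin k) = j' := Fin.ext (by simp; omega)
    refine ⟨p.copy rfl (by rw [e]), ?_⟩
    rw [SimpleGraph.Walk.length_copy, hp]
    omega
  · obtain ⟨p, hp⟩ := vert (m := m) (k := k) i s (j.val - j'.val) j'.val (by omega)
    have e : (⟨j'.val + (j.val - j'.val), by omega⟩ : Fin k) = j := Fin.ext (by simp; omega)
    refine ⟨(p.copy rfl (by rw [e])).reverse, ?_⟩
    rw [SimpleGraph.Walk.length_reverse, SimpleGraph.Walk.length_copy, hp]
    omega

lemma walk_inl (x y : Fin m × Bool × Fin k) :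
    ∃ p : (HG m k).Walk (Sum.inl x) (Sum.inl y), p.length ≤ k + 1 := by
  obtain ⟨i, s, j⟩ := x
  obtain ⟨i', s', j'⟩ := y
  obtain ⟨p, hp⟩ := vert' (m := m) i s j j'
  by_cases hs : s = s'
  · subst hs
    have h1 : (HG m k).Adj (Sum.inl (i, s, j')) (Sum.inl (i, !s, j')) :=
      Or.inl ⟨rfl, by simp⟩
    have h2 : (HG m k).Adj (Sum.inl (i, !s, j')) (Sum.inl (i', s, j')) :=
      Or.inl ⟨rfl, by simp⟩
    refine ⟨(p.concat h1).concat h2, ?_⟩
    rw [SimpleGraph.Walk.length_concat, SimpleGraph.Walk.length_concat]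
    omega
  · have h1 : (HG m k).Adj (Sum.inl (i, s, j')) (Sum.inl (i', s', j')) :=
      Or.inl ⟨rfl, hs⟩
    refine ⟨p.concat h1, ?_⟩
    rw [SimpleGraph.Walk.length_concat]
    omega

lemma walk_all (hm : 0 < m) (x y : (Fin m × Bool × Fin k) ⊕ Fin k) :
    ∃ p : (HG m k).Walk x y, p.length ≤ k + 3 := by
  rcases x with x | l <;> rcases y with y | l'
  · obtain ⟨p, hp⟩ := walk_inl x y
    exact ⟨p, by omega⟩
  · obtain ⟨p, hp⟩ := walk_inl x (⟨0, hm⟩, false, l')
    have h : (HG m k).Adj (Sum.inl (⟨0, hm⟩, false, l')) (Sum.inr l') := ⟨rfl, rfl⟩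
    refine ⟨p.concat h, ?_⟩
    rw [SimpleGraph.Walk.length_concat]
    omega
  · obtain ⟨p, hp⟩ := walk_inl (⟨0, hm⟩, false, l) y
    have h : (HG m k).Adj (Sum.inr l) (Sum.inl (⟨0, hm⟩, false, l)) := ⟨rfl, rfl⟩
    refine ⟨p.cons h, ?_⟩
    rw [SimpleGraph.Walk.length_cons]
    omega
  · obtain ⟨p, hp⟩ := walk_inl (k := k) (⟨0, hm⟩, false, l) (⟨0, hm⟩, false, l')
    have h : (HG m k).Adj (Sum.inr l) (Sum.inl (⟨0, hm⟩, false, l)) := ⟨rfl, rfl⟩
    have h' : (HG m k).Adj (Sum.inl (⟨0, hm⟩, false, l')) (Sum.inr l') := ⟨rfl, rfl⟩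
    refine ⟨(p.concat h').cons h, ?_⟩
    rw [SimpleGraph.Walk.length_cons, SimpleGraph.Walk.length_concat]
    omega

lemma HG_connected (hm : 0 < m) (hk : 0 < k) : (HG m k).Connected := by
  have : Nonempty ((Fin m × Bool × Fin k) ⊕ Fin k) := ⟨Sum.inr ⟨0, hk⟩⟩
  refine SimpleGraph.Connected.mk ?_
  intro x y
  obtain ⟨p, _⟩ := walk_all hm x y
  exact ⟨p⟩

lemma HG_dist_le (hm : 0 < m) (x y : (Fin m × Bool × Fin k) ⊕ Fin k) :
    (HG m k).dist x y ≤ k + 3 := by
  obtain ⟨p, hp⟩ := walk_all hm x y
  exact (SimpleGraph.dist_le p).trans hp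

/-- lower bound for distances from the bottom of a column -/
lemma HG_far (hm : 0 < m) (hk : 0 < k) (i : Fin m) (s : Bool) (i' : Fin m) (s' : Bool)
    (j : Fin k) : (if i' = i ∧ s' = s then j.val else j.val + 1) ≤
      (HG m k).dist (Sum.inl (i', s', j)) (Sum.inl (i, s, ⟨0, hk⟩)) := by
  classical
  let φ : (Fin m × Bool × Fin k) ⊕ Fin k → ℕ := fun x => match x with
    | Sum.inl x => if x.1 = i ∧ x.2.1 = s then x.2.2.val else x.2.2.val + 1
    | Sum.inr l => l.val + 1
  have hφ : ∀ x y, (HG m k).Adj x y → φ x ≤ φ y + 1 := by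
    rintro (⟨a, b, c⟩ | l) (⟨a', b', c'⟩ | l') h
    · rcases h with ⟨h1, h2⟩ | ⟨h1, h2, h3⟩
      · simp only at h1 h2
        subst h1
        simp only [φ]
        split_ifs <;> omega
      · simp only at h1 h2 h3
        subst h1 h2
        simp only [φ]
        split_ifs <;> omega
    · obtain ⟨h1, h2⟩ := h
      simp only at h1 h2
      subst h1 h2
      simp only [φ]
      split_ifs <;> omega
    · obtain ⟨h1, h2⟩ := h
      simp only at h1 h2
      subst h1 h2
      simp only [φ]
      split_ifs <;> omega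
    · exact h.elim
  have := lip_le_dist (HG_connected hm hk) φ hφ (Sum.inl (i', s', j)) (Sum.inl (i, s, ⟨0, hk⟩))
  simpa [φ] using this

lemma HG_ir (hm : 0 < m) (hk : 2 ≤ k) : 2 * m * (k - 1) ≤ upperIrredundance (HG m k) := by
  classical
  have hk0 : 0 < k := by omega
  let f : (Fin m × Bool × Fin k) ⊕ Fin k → ℕ := fun x => match x with
    | Sum.inl x => if x.2.2.val = 0 then k - 1 else 0
    | Sum.inr _ => 0
  have hup : ∀ (i : Fin m) (s : Bool), (HG m k).dist (Sum.inl (i, s, ⟨k - 1, by omega⟩))
      (Sum.inl (i, s, ⟨0, hk0⟩)) = k - 1 := by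
    intro i s
    apply le_antisymm
    · obtain ⟨p, hp⟩ := vert' (m := m) i s (⟨k - 1, by omega⟩ : Fin k) ⟨0, hk0⟩
      have := SimpleGraph.dist_le p
      omega
    · have := HG_far hm hk0 i s i s (⟨k - 1, by omega⟩ : Fin k)
      simpa using this
  have hf : Irredundant (HG m k) f := by
    constructor
    · rintro (⟨i, s, j⟩ | l)
      · by_cases hj : j.val = 0
        · refine ⟨Sum.inl (i, s, ⟨k - 1, by omega⟩), ?_⟩
          have : j = ⟨0, hk0⟩ := Fin.ext hj
          subst this
          rw [SimpleGraph.dist_comm, hup]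
          simp [f]
        · refine ⟨Sum.inl (i, s, j), ?_⟩
          simp [f, hj]
      · refine ⟨Sum.inr l, ?_⟩
        simp [f]
    · rintro (⟨i, s, j⟩ | l) hv
      · by_cases hj : j.val = 0
        · have : j = ⟨0, hk0⟩ := Fin.ext hj
          subst this
          refine ⟨Sum.inl (i, s, ⟨k - 1, by omega⟩), ?_, ?_, ?_⟩
          · rw [hup]; simp [f]
          · rw [hup]
            simp only [f]
            simp
            omega
          · rintro (⟨i', s', j'⟩ | l') hw ⟨h1, h2⟩
            · by_cases hj' : j'.val = 0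
              · have : j' = ⟨0, hk0⟩ := Fin.ext hj'
                subst this
                have h3 := HG_far hm hk0 i' s' i s (⟨k - 1, by omega⟩ : Fin k)
                have h4 : ¬ (i = i' ∧ s = s') := by
                  rintro ⟨rfl, rfl⟩
                  exact hw rfl
                rw [if_neg h4] at h3
                simp only [f] at h2
                simp at h2
                simp only at h3
                omega
              · simp [f, hj'] at h1
            · simp [f] at h1
        · simp [f, hj] at hv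
      · simp [f] at hv
  refine le_trans (le_of_eq ?_) (le_upperIrredundance (HG_connected hm hk0) hf)
  rw [Fintype.sum_sum_type, Fintype.sum_prod_type]
  simp only [f, Fintype.sum_prod_type, Finset.sum_const_zero, add_zero]
  have : ∑ x : Fin k, (if x.val = 0 then k - 1 else 0) = k - 1 := by
    rw [Finset.sum_eq_single (⟨0, hk0⟩ : Fin k)]
    · simp
    · intro b _ hb
      rw [if_neg]
      intro h
      exact hb (Fin.ext h)
    · intro h
      exact absurd (Finset.mem_univ _) h
  simp only [this]
  simp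
  ring

end Pool.Agent.Q260.BC
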