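import Mathlib
import Pool.Agent.Q260.BC.Defs
import Pool.Agent.Q260.BC.Paths
import Pool.Agent.Q260.BC.Bip

/-! Upper bound for `Γ_b` of the graph `HG m k`. -/

open Finset

namespace Pool.Agent.Q260.BC

variable {m k : ℕ} {f : (Fin m × Bool × Fin k) ⊕ Fin k → ℕ} (P : PD (HG m k) f)

open PD

/-- neighbours of a vertex of a level -/
lemma nbr {i : Fin m} {s : Bool} {j : Fin k} {y : (Fin m × Bool × Fin k) ⊕ Fin k}
    (h : (HG m k).Adj (Sum.inl (i, s, j)) y) :
    (∃ i', y = Sum.inl (i', !s, j)) ∨ (∃ j' : Fin k, j'.val = j.val + 1 ∧ y = Sum.inl (i, s, j')) ∨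
    (∃ j' : Fin k, j'.val + 1 = j.val ∧ y = Sum.inl (i, s, j')) ∨ (s = false ∧ y = Sum.inr j) := by
  rcases y with ⟨i', s', j'⟩ | l
  · rcases h with ⟨h1, h2⟩ | ⟨h1, h2, h3⟩
    · simp only at h1 h2
      subst h1
      left
      refine ⟨i', ?_⟩
      have : s' = !s := by cases s <;> cases s' <;> simp_all
      rw [this]
    · simp only at h1 h2 h3
      subst h1 h2
      rcases h3 with h3 | h3
      · right; left
        exact ⟨j', h3.symm, rfl⟩
      · right; right; left
        exact ⟨j', h3, rfl⟩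
  · obtain ⟨h1, h2⟩ := h
    simp only at h1 h2
    subst h1 h2
    exact Or.inr (Or.inr (Or.inr ⟨rfl, rfl⟩))

lemma adj_level {i i' : Fin m} {s s' : Bool} {j : Fin k} (h : s ≠ s') :
    (HG m k).Adj (Sum.inl (i, s, j)) (Sum.inl (i', s', j)) := Or.inl ⟨rfl, h⟩

/-- position `(i, s, j)` lies on a private geodesic, at height `h` and not at its start -/
def OnG (s : Bool) (j : Fin k) (h : ℕ) (i : Fin m) : Prop :=
  ∃ v t, P.Geo v ∧ 1 ≤ t ∧ t ≤ f v ∧ f v - t = h ∧ P.p v t = Sum.inl (i, s, j)

open Classical in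
/-- the set of such `i` -/
noncomputable def Q (s : Bool) (j : Fin k) (h : ℕ) : Finset (Fin m) :=
  Finset.univ.filter fun i => OnG P s j h i

lemma mem_Q {s : Bool} {j : Fin k} {h : ℕ} {i : Fin m} : i ∈ Q P s j h ↔ OnG P s j h i := by
  unfold Q
  simp

variable {P}

/-- owners of different positions at the same height are different -/
lemma owner_ne {v v' : (Fin m × Bool × Fin k) ⊕ Fin k} {t t' : ℕ} (ht : t ≤ f v) (ht' : t' ≤ f v')
    (hh : f v - t = f v' - t') (hne : P.p v t ≠ P.p v' t') : v ≠ v' := by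
  rintro rfl
  apply hne
  have : t = t' := by omega
  rw [this]

lemma base (hG : (HG m k).Connected) (hd : Dominating (HG m k) f) (j : Fin k)
    (h0 : 2 ≤ (Q P false j 0).card) (h1 : 2 ≤ (Q P true j 0).card) : False := by
  obtain ⟨u, hu1, hu2⟩ := hd (Sum.inr j)
  obtain ⟨a, ha, b, hb, hab⟩ := Finset.one_lt_card.1 (by omega : 1 < (Q P false j 0).card)
  obtain ⟨a', ha', b', hb', hab'⟩ := Finset.one_lt_card.1 (by omega : 1 < (Q P true j 0).card)
  rw [mem_Q] at ha hb ha' hb'
  have key : ∀ s i, OnG P s j 0 i → (HG m k).dist u (Sum.inl (i, s, j)) ≤ f u →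
      ∃ t, P.Geo u ∧ t = f u ∧ P.p u t = Sum.inl (i, s, j) := by
    rintro s i ⟨v, t, hv, ht1, ht2, ht3, ht4⟩ hle
    by_cases huv : u = v
    · subst huv
      exact ⟨t, hv, by omega, ht4⟩
    · exfalso
      have h2 := P.far hu1 hv.1 huv
      have h3 := hv.d2 ht2
      rw [ht3] at h3
      rw [hG.dist_eq_zero_iff.1 h3] at ht4
      rw [ht4] at h2
      omega
  by_cases huj : u = Sum.inr j
  · subst huj
    have hle : ∀ i, (HG m k).dist (Sum.inr j) (Sum.inl (i, false, j)) ≤ f (Sum.inr j) := by
      intro i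
      have : (HG m k).Adj (Sum.inr j) (Sum.inl (i, false, j)) := ⟨rfl, rfl⟩
      rw [SimpleGraph.dist_eq_one_iff_adj.2 this]
      omega
    obtain ⟨t, _, ht, he⟩ := key false a ha (hle a)
    obtain ⟨t', _, ht', he'⟩ := key false b hb (hle b)
    rw [ht] at he
    rw [ht', he] at he'
    apply hab
    have := Sum.inl.inj he'
    exact (Prod.mk.inj this).1
  · have hpos : 0 < (HG m k).dist (Sum.inr j) u := hG.pos_dist_of_ne (Ne.symm huj)
    obtain ⟨p, hp0, hpadj, hpd⟩ := exists_geod hG (Sum.inr j) u
    have h2 := hpadj 0 hpos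
    rw [hp0] at h2
    have h3 := (hpd 1 hpos).2
    simp only [zero_add] at h2
    cases hx : p 1 with
    | inr l => rw [hx] at h2; exact h2.elim
    | inl x =>
      obtain ⟨i0, s0, j0⟩ := x
      rw [hx] at h2 h3
      obtain ⟨hs, hj⟩ := h2
      simp only at hs hj
      subst hs hj
      have hle : ∀ i, (HG m k).dist u (Sum.inl (i, true, j0)) ≤ f u := by
        intro i
        have h4 : (HG m k).Adj (Sum.inl (i0, false, j0)) (Sum.inl (i, true, j0)) :=
          adj_level (by simp)
        have h5 := hG.dist_triangle (u := u) (v := Sum.inl (i0, false, j0))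
          (w := Sum.inl (i, true, j0))
        rw [SimpleGraph.dist_eq_one_iff_adj.2 h4, SimpleGraph.dist_comm] at h5
        rw [SimpleGraph.dist_comm (u := Sum.inl (i0, false, j0))] at h3
        rw [SimpleGraph.dist_comm (u := u) (v := Sum.inl (i0, false, j0)),
          SimpleGraph.dist_comm (u := Sum.inl (i0, false, j0)), h3] at h5
        rw [SimpleGraph.dist_comm]
        omega
      obtain ⟨t, _, ht, he⟩ := key true a' ha' (hle a')
      obtain ⟨t', _, ht', he'⟩ := key true b' hb' (hle b')
      rw [ht] at he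
      rw [ht', he] at he'
      apply hab'
      have := Sum.inl.inj he'
      exact (Prod.mk.inj this).1

/-- all path vertices of a level have the same height -/
lemma same_height (hG : (HG m k).Connected) {j : Fin k} {h : ℕ}
    (h0 : ∀ s, 2 ≤ (Q P s j h).card) {u : (Fin m × Bool × Fin k) ⊕ Fin k} (hu : P.Geo u)
    {t : ℕ} (ht : t ≤ f u) {i : Fin m} {s : Bool} (he : P.p u t = Sum.inl (i, s, j)) :
    f u - t = h := by
  obtain ⟨a, ha, b, hb, hab⟩ := Finset.one_lt_card.1 (by have := h0 (!s); omega :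
    1 < (Q P (!s) j h).card)
  rw [mem_Q] at ha hb
  obtain ⟨v, t1, hv, _, ht1, hh1, he1⟩ := ha
  obtain ⟨v', t2, hv', _, ht2, hh2, he2⟩ := hb
  have hvv : v ≠ v' := by
    apply owner_ne (P := P) ht1 ht2 (by omega)
    rw [he1, he2]
    intro h
    exact hab (Prod.mk.inj (Sum.inl.inj h)).1
  by_cases huv : u = v
  · have huv' : u ≠ v' := by rw [huv]; exact hvv
    rw [← hh2]
    apply rule hG hu hv' huv' ht ht2
    rw [he, he2]
    exact adj_level (by simp)
  · rw [← hh1]
    apply rule hG hu hv huv ht ht1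
    rw [he, he1]
    exact adj_level (by simp)

/-- shape of a path near a level all of whose path vertices have height `h + 1` -/
lemma shape {j : Fin k} {h : ℕ}
    (hsame : ∀ u t i s, P.Geo u → t ≤ f u → P.p u t = Sum.inl (i, s, j) → f u - t = h + 1)
    {v : (Fin m × Bool × Fin k) ⊕ Fin k} {t : ℕ} {i : Fin m} {s : Bool} (hv : P.Geo v)
    (ht1 : 1 ≤ t) (ht2 : t ≤ f v) (hh : f v - t = h + 1) (he : P.p v t = Sum.inl (i, s, j)) :
    (∃ j' j'' : Fin k, j'.val = j.val + 1 ∧ j''.val + 1 = j.val ∧
      P.p v (t + 1) = Sum.inl (i, s, j') ∧ P.p v (t - 1) = Sum.inl (i, s, j'')) ∨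
    (∃ j' j'' : Fin k, j'.val = j.val + 1 ∧ j''.val + 1 = j.val ∧
      P.p v (t + 1) = Sum.inl (i, s, j'') ∧ P.p v (t - 1) = Sum.inl (i, s, j')) ∨
    (s = false ∧ (P.p v (t + 1) = Sum.inr j ∨ P.p v (t - 1) = Sum.inr j)) := by
  have ha : (HG m k).Adj (Sum.inl (i, s, j)) (P.p v (t + 1)) := by
    rw [← he]; exact hv.adj (by omega)
  have hb : (HG m k).Adj (Sum.inl (i, s, j)) (P.p v (t - 1)) := by
    have := hv.adj (t := t - 1) (by omega)
    rw [Nat.sub_add_cancel ht1, he] at this
    exact this.symm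
  have hne : P.p v (t + 1) ≠ P.p v (t - 1) := by
    intro h
    have := hv.inj (by omega) (by omega) h
    omega
  rcases nbr ha with ⟨i', h1⟩ | ⟨j', hj', h1⟩ | ⟨j', hj', h1⟩ | ⟨hs, h1⟩
  · exfalso
    have := hsame v (t + 1) i' (!s) hv (by omega) h1
    omega
  · rcases nbr hb with ⟨i', h2⟩ | ⟨j'', hj'', h2⟩ | ⟨j'', hj'', h2⟩ | ⟨hs, h2⟩
    · exfalso
      have := hsame v (t - 1) i' (!s) hv (by omega) h2
      omega
    · exfalso
      apply hne
      rw [h1, h2]
      have : j' = j'' := Fin.ext (by omega)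
      rw [this]
    · exact Or.inl ⟨j', j'', hj', hj'', h1, h2⟩
    · exact Or.inr (Or.inr ⟨hs, Or.inr h2⟩)
  · rcases nbr hb with ⟨i', h2⟩ | ⟨j'', hj'', h2⟩ | ⟨j'', hj'', h2⟩ | ⟨hs, h2⟩
    · exfalso
      have := hsame v (t - 1) i' (!s) hv (by omega) h2
      omega
    · exact Or.inr (Or.inl ⟨j'', j', hj'', hj', h1, h2⟩)
    · exfalso
      apply hne
      rw [h1, h2]
      have : j' = j'' := Fin.ext (by omega)
      rw [this]
    · exact Or.inr (Or.inr ⟨hs, Or.inr h2⟩)
  · exact Or.inr (Or.inr ⟨hs, Or.inl h1⟩)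

/-- a path passing vertically from level `a` through level `j` to level `b` -/
def Pass (P : PD (HG m k) f) (j a b : Fin k) (h : ℕ) (s : Bool) (i : Fin m) : Prop :=
  ∃ v t, P.Geo v ∧ 1 ≤ t ∧ t ≤ f v ∧ f v - t = h + 1 ∧ P.p v t = Sum.inl (i, s, j) ∧
    P.p v (t + 1) = Sum.inl (i, s, b) ∧ P.p v (t - 1) = Sum.inl (i, s, a)

lemma Pass.next {j a b : Fin k} {h : ℕ} {s : Bool} {i : Fin m} (hp : Pass P j a b h s i) :
    OnG P s b h i := by
  obtain ⟨v, t, hv, ht1, ht2, hh, _, he, _⟩ := hp
  exact ⟨v, t + 1, hv, by omega, by omega, by omega, he⟩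

lemma conflict (hG : (HG m k).Connected) {j a b : Fin k} {h : ℕ} {s s' : Bool} {i i' : Fin m}
    (hss : s ≠ s') (h1 : Pass P j a b h s i) (h2 : Pass P j b a h s' i') : False := by
  obtain ⟨v, t, hv, ht1, ht2, hh, he, he1, he2⟩ := h1
  obtain ⟨v', t', hv', ht1', ht2', hh', he', he1', he2'⟩ := h2
  have hne : v ≠ v' := by
    apply owner_ne (P := P) ht2 ht2' (by omega)
    rw [he, he']
    intro h
    exact hss (Prod.mk.inj (Prod.mk.inj (Sum.inl.inj h)).2).1
  have := rule hG hv hv' hne (by omega : t + 1 ≤ f v) (by omega : t' - 1 ≤ f v') (by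
    rw [he1, he2']
    exact adj_level hss)
  omega

lemma main (hG : (HG m k).Connected) (hd : Dominating (HG m k) f) : ∀ (h : ℕ) (j : Fin k),
    2 + h ≤ (Q P false j h).card → 2 ≤ (Q P true j h).card → False := by
  classical
  intro h
  induction h with
  | zero => intro j h0 h1; exact base hG hd j (by omega) h1
  | succ h ih =>
    intro j h0 h1
    have hs : ∀ s, 2 ≤ (Q P s j (h + 1)).card := by
      intro s
      cases s
      · omega
      · exact h1
    have hsame : ∀ u t i s, P.Geo u → t ≤ f u → P.p u t = Sum.inl (i, s, j) →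
        f u - t = h + 1 := fun u t i s hu ht he => same_height hG hs hu ht he
    have hshape : ∀ s i, OnG P s j (h + 1) i →
        (∃ a b : Fin k, a.val + 1 = j.val ∧ b.val = j.val + 1 ∧
          (Pass P j a b h s i ∨ Pass P j b a h s i)) ∨
        (s = false ∧ ∃ v t t', P.Geo v ∧ t ≤ f v ∧ t' ≤ f v ∧ f v - t = h + 1 ∧
          P.p v t = Sum.inl (i, s, j) ∧ P.p v t' = Sum.inr j) := by
      rintro s i ⟨v, t, hv, ht1, ht2, hh, he⟩
      rcases shape hsame hv ht1 ht2 hh he with ⟨j', j'', hj', hj'', h2, h3⟩ |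
        ⟨j', j'', hj', hj'', h2, h3⟩ | ⟨h2, h3 | h3⟩
      · left
        exact ⟨j'', j', hj'', hj', Or.inl ⟨v, t, hv, ht1, ht2, hh, he, h2, h3⟩⟩
      · left
        exact ⟨j'', j', hj'', hj', Or.inr ⟨v, t, hv, ht1, ht2, hh, he, h2, h3⟩⟩
      · right
        exact ⟨h2, v, t, t + 1, hv, ht2, by omega, hh, he, h3⟩
      · right
        exact ⟨h2, v, t, t - 1, hv, ht2, by omega, hh, he, h3⟩
    -- levels above and below
    obtain ⟨i1, hi1⟩ := Finset.card_pos.1 (by omega : 0 < (Q P true j (h + 1)).card)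
    obtain ⟨a, b, hja, hjb, -⟩ : ∃ a b : Fin k, a.val + 1 = j.val ∧ b.val = j.val + 1 ∧
        (Pass P j a b h true i1 ∨ Pass P j b a h true i1) := by
      rcases hshape true i1 ((mem_Q P).1 hi1) with h2 | ⟨h2, _⟩
      · exact h2
      · exact absurd h2 (by simp)
    have htrue : ∀ i ∈ Q P true j (h + 1), Pass P j a b h true i ∨ Pass P j b a h true i := by
      intro i hi
      rcases hshape true i ((mem_Q P).1 hi) with ⟨a', b', ha', hb', h2⟩ | ⟨h2, _⟩
      · have e1 : a' = a := Fin.ext (by omega)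
        have e2 : b' = b := Fin.ext (by omega)
        rw [e1, e2] at h2
        exact h2
      · exact absurd h2 (by simp)
    obtain ⟨pr, hpr⟩ : ∃ pr : Fin m → Prop, ∀ i, pr i ↔
      (Pass P j a b h false i ∨ Pass P j b a h false i) := ⟨_, fun i => Iff.rfl⟩
    set S := (Q P false j (h + 1)).filter pr with hS
    have hScard : 2 + h ≤ S.card := by
      have h2 : (Q P false j (h + 1)).card ≤ S.card + 1 := by
        have h3 : S.card + ((Q P false j (h + 1)).filter fun i => ¬ pr i).card =
            (Q P false j (h + 1)).card := by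
          rw [hS]
          convert Finset.card_filter_add_card_filter_not (s := Q P false j (h + 1)) pr
        have h4 : ((Q P false j (h + 1)).filter fun i => ¬ pr i).card ≤ 1 := by
          rw [Finset.card_le_one]
          have hbad : ∀ i ∈ (Q P false j (h + 1)).filter (fun i => ¬ pr i),
              ∃ v t t', P.Geo v ∧ t ≤ f v ∧ t' ≤ f v ∧ f v - t = h + 1 ∧
              P.p v t = Sum.inl (i, false, j) ∧ P.p v t' = Sum.inr j := by
            intro i hi
            rw [Finset.mem_filter] at hi
            rcases hshape false i ((mem_Q P).1 hi.1) with ⟨a', b', ha', hb', h2⟩ | ⟨_, h2⟩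
            · exfalso
              have e1 : a' = a := Fin.ext (by omega)
              have e2 : b' = b := Fin.ext (by omega)
              rw [e1, e2] at h2
              exact hi.2 ((hpr i).2 h2)
            · exact h2
          intro x hx y hy
          obtain ⟨v, t, t', hv, ht, ht', hh, he, he'⟩ := hbad x hx
          obtain ⟨u, r, r', hu, hr, hr', hh', hf, hf'⟩ := hbad y hy
          by_contra hxy
          have hne : v ≠ u := by
            apply owner_ne (P := P) ht hr (by omega)
            rw [he, hf]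
            intro h
            exact hxy (Prod.mk.inj (Sum.inl.inj h)).1
          exact disj hG hv hu hne ht' hr' (by rw [he', hf'])
        omega
      omega
    have hSmem : ∀ i ∈ S, Pass P j a b h false i ∨ Pass P j b a h false i :=
      fun i hi => (hpr i).1 (Finset.mem_filter.1 hi).2
    obtain ⟨i0, hi0⟩ := Finset.card_pos.1 (by omega : 0 < S.card)
    rcases htrue i1 hi1 with h2 | h2
    · have hSup : ∀ i ∈ S, Pass P j a b h false i := by
        intro i hi
        rcases hSmem i hi with h3 | h3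
        · exact h3
        · exact (conflict hG (by simp) h2 h3).elim
      have hTup : ∀ i ∈ Q P true j (h + 1), Pass P j a b h true i := by
        intro i hi
        rcases htrue i hi with h3 | h3
        · exact h3
        · exact (conflict hG (by simp) (hSup i0 hi0) h3).elim
      apply ih b
      · refine hScard.trans (Finset.card_le_card ?_)
        intro i hi
        exact (mem_Q P).2 (hSup i hi).next
      · refine h1.trans (Finset.card_le_card ?_)
        intro i hi
        exact (mem_Q P).2 (hTup i hi).next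
    · have hSup : ∀ i ∈ S, Pass P j b a h false i := by
        intro i hi
        rcases hSmem i hi with h3 | h3
        · exact (conflict hG (by simp) h2 h3).elim
        · exact h3
      have hTup : ∀ i ∈ Q P true j (h + 1), Pass P j b a h true i := by
        intro i hi
        rcases htrue i hi with h3 | h3
        · exact (conflict hG (by simp) (hSup i0 hi0) h3).elim
        · exact h3
      apply ih a
      · refine hScard.trans (Finset.card_le_card ?_)
        intro i hi
        exact (mem_Q P).2 (hSup i hi).next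
      · refine h1.trans (Finset.card_le_card ?_)
        intro i hi
        exact (mem_Q P).2 (hTup i hi).next

open Classical in
/-- a geodesic has at most three vertices of one type in a level -/
lemma few {v : (Fin m × Bool × Fin k) ⊕ Fin k} (hG : (HG m k).Connected) (hv : P.Geo v)
    (s : Bool) (j : Fin k) :
    (Finset.univ.filter fun i : Fin m => ∃ t ≤ f v, P.p v t = Sum.inl (i, s, j)).card ≤ 3 := by
  set B := Finset.univ.filter fun i : Fin m => ∃ t ≤ f v, P.p v t = Sum.inl (i, s, j) with hB
  have hmem : ∀ i ∈ B, ∃ t ≤ f v, P.p v t = Sum.inl (i, s, j) := fun i hi =>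
    (Finset.mem_filter.1 hi).2
  choose! τ hτ1 hτ2 using hmem
  have hdist : ∀ i ∈ B, ∀ i' ∈ B, τ i' ≤ τ i + 2 := by
    intro i hi i' hi'
    have h1 : (HG m k).dist (P.p v (τ i)) (P.p v (τ i')) ≤ 2 := by
      rw [hτ2 i hi, hτ2 i' hi']
      have h2 : (HG m k).Adj (Sum.inl (i, s, j)) (Sum.inl (i, !s, j)) := adj_level (by simp)
      have h3 : (HG m k).Adj (Sum.inl (i, !s, j)) (Sum.inl (i', s, j)) := adj_level (by simp)
      have h4 := hG.dist_triangle (u := Sum.inl (i, s, j)) (v := Sum.inl (i, !s, j))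
        (w := Sum.inl (i', s, j))
      rw [SimpleGraph.dist_eq_one_iff_adj.2 h2, SimpleGraph.dist_eq_one_iff_adj.2 h3] at h4
      exact h4
    have h2 := hv.d1 (hτ1 i hi)
    have h3 := hv.d1 (hτ1 i' hi')
    have h4 := hG.dist_triangle (u := v) (v := P.p v (τ i)) (w := P.p v (τ i'))
    omega
  have hinj : Set.InjOn τ B := by
    intro i hi i' hi' h
    have h1 := hτ2 i hi
    have h2 := hτ2 i' hi'
    rw [h, h2] at h1
    exact (Prod.mk.inj (Sum.inl.inj h1)).1.symm
  by_cases hne : B.Nonempty
  · obtain ⟨i0, hi0, hmin⟩ := Finset.exists_min_image B τ hne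
    have : B.card ≤ (Finset.Icc (τ i0) (τ i0 + 2)).card := by
      apply Finset.card_le_card_of_injOn τ
      · intro i hi
        have h1 := hmin i hi
        have h2 := hdist i0 hi0 i hi
        simp only [Finset.coe_Icc, Set.mem_Icc]
        exact ⟨h1, h2⟩
      · exact hinj
    rw [Nat.card_Icc] at this
    omega
  · rw [Finset.not_nonempty_iff_eq_empty] at hne
    rw [hne]
    simp

open Classical in
/-- vertices of one type in one level carrying cost -/
noncomputable def DS (P : PD (HG m k) f) (s : Bool) (j : Fin k) : Finset (Fin m) :=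
  Finset.univ.filter fun i => Sum.inl (i, s, j) ∈ D P

lemma level (hm : 0 < m) (hG : (HG m k).Connected) (hb : IsBroadcast (HG m k) f)
    (hd : Dominating (HG m k) f) (j : Fin k) :
    (DS P false j).card + (DS P true j).card ≤ m + (k + 9) := by
  classical
  by_contra hcon
  push Not at hcon
  have hle : ∀ s, (DS P s j).card ≤ m := by
    intro s
    have := Finset.card_le_univ (DS P s j)
    simpa using this
  have hbig : ∀ s, k + 10 ≤ (DS P s j).card := by
    have h1 := hle false
    have h2 := hle true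
    intro s
    cases s <;> omega
  have hmem : ∀ s i, i ∈ DS P s j → (∃ v t, P.Geo v ∧ 1 ≤ t ∧ t ≤ f v ∧
      P.p v t = Sum.inl (i, s, j)) ∨ P.Self (Sum.inl (i, s, j)) := by
    intro s i hi
    unfold DS at hi
    rw [Finset.mem_filter] at hi
    exact mem_D hG P hi.2
  have hgeo : ∀ s i, i ∈ DS P s j → ∃ v t, P.Geo v ∧ 1 ≤ t ∧ t ≤ f v ∧
      P.p v t = Sum.inl (i, s, j) := by
    intro s i hi
    rcases hmem s i hi with h | h
    · exact h
    · exfalso
      obtain ⟨i', hi'⟩ := Finset.card_pos.1 (by have := hbig (!s); omega :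
        0 < (DS P (!s) j).card)
      have hadj : (HG m k).Adj (Sum.inl (i, s, j)) (Sum.inl (i', !s, j)) :=
        adj_level (by simp)
      rcases hmem (!s) i' hi' with ⟨v, t, hv, ht1, ht2, he⟩ | h'
      · have hne : v ≠ Sum.inl (i, s, j) := by
          rintro rfl
          exact P.not_both hG hv h
        have := (self_geo hG hv h hne ht2).2
        rw [he] at this
        exact this hadj
      · exact self_self h h' hadj.ne hadj
  obtain ⟨i0, hi0⟩ := Finset.card_pos.1 (by have := hbig false; omega :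
    0 < (DS P false j).card)
  obtain ⟨v0, t0, hv0, ht0, ht0', he0⟩ := hgeo false i0 hi0
  -- the other side
  have hA1 : k + 7 ≤ (Q P true j (f v0 - t0)).card := by
    have h1 : DS P true j ⊆ Q P true j (f v0 - t0) ∪
        (Finset.univ.filter fun i : Fin m => ∃ t ≤ f v0, P.p v0 t = Sum.inl (i, true, j)) := by
      intro i hi
      obtain ⟨v, t, hv, ht, ht', he⟩ := hgeo true i hi
      rw [Finset.mem_union]
      by_cases hvv : v = v0
      · right
        rw [Finset.mem_filter]
        subst hvv
        exact ⟨Finset.mem_univ _, t, ht', he⟩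
      · left
        rw [mem_Q]
        refine ⟨v, t, hv, ht, ht', ?_, he⟩
        apply rule hG hv hv0 hvv ht' ht0'
        rw [he, he0]
        exact adj_level (by simp)
    have h2 := Finset.card_le_card h1
    have h3 := few (P := P) hG hv0 true j
    have h4 := Finset.card_union_le (Q P true j (f v0 - t0))
      (Finset.univ.filter fun i : Fin m => ∃ t ≤ f v0, P.p v0 t = Sum.inl (i, true, j))
    have h5 := hbig true
    omega
  obtain ⟨i1, hi1⟩ := Finset.card_pos.1 (by omega : 0 < (Q P true j (f v0 - t0)).card)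
  rw [mem_Q] at hi1
  obtain ⟨v1, t1, hv1, ht1, ht1', hh1, he1⟩ := hi1
  have hA0 : k + 7 ≤ (Q P false j (f v0 - t0)).card := by
    have h1 : DS P false j ⊆ Q P false j (f v0 - t0) ∪
        (Finset.univ.filter fun i : Fin m => ∃ t ≤ f v1, P.p v1 t = Sum.inl (i, false, j)) := by
      intro i hi
      obtain ⟨v, t, hv, ht, ht', he⟩ := hgeo false i hi
      rw [Finset.mem_union]
      by_cases hvv : v = v1
      · right
        rw [Finset.mem_filter]
        subst hvv
        exact ⟨Finset.mem_univ _, t, ht', he⟩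
      · left
        rw [mem_Q]
        refine ⟨v, t, hv, ht, ht', ?_, he⟩
        rw [← hh1]
        apply rule hG hv hv1 hvv ht' ht1'
        rw [he, he1]
        exact adj_level (by simp)
    have h2 := Finset.card_le_card h1
    have h3 := few (P := P) hG hv1 false j
    have h4 := Finset.card_union_le (Q P false j (f v0 - t0))
      (Finset.univ.filter fun i : Fin m => ∃ t ≤ f v1, P.p v1 t = Sum.inl (i, false, j))
    have h5 := hbig false
    omega
  have hfv : f v0 ≤ k + 3 := by
    obtain ⟨u, hu⟩ := hb v0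
    exact hu.trans (HG_dist_le hm _ _)
  exact main (P := P) hG hd (f v0 - t0) j (by omega) (by omega)

lemma cost_le (hm : 0 < m) (hk : 0 < k) (hf : MinimalDominating (HG m k) f) :
    ∑ v, f v ≤ k * (m + (k + 10)) := by
  classical
  have hG := HG_connected hm hk
  obtain ⟨P⟩ := exists_PD hG hf.irredundant
  rw [← card_D hG P]
  have h1 : (D P).card = ∑ x, if x ∈ D P then 1 else 0 := by simp
  rw [h1, Fintype.sum_sum_type]
  have h2 : ∑ l : Fin k, (if (Sum.inr l : (Fin m × Bool × Fin k) ⊕ Fin k) ∈ D P then 1 else 0)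
      ≤ k := by
    calc _ ≤ ∑ _l : Fin k, 1 := Finset.sum_le_sum fun l _ => by split_ifs <;> omega
      _ = k := by simp
  have h3 : ∑ x : Fin m × Bool × Fin k,
      (if (Sum.inl x : (Fin m × Bool × Fin k) ⊕ Fin k) ∈ D P then 1 else 0) =
      ∑ j : Fin k, ((DS P false j).card + (DS P true j).card) := by
    simp only [Fintype.sum_prod_type]
    rw [Finset.sum_congr rfl fun i _ => Fintype.sum_bool _, Finset.sum_add_distrib,
      Finset.sum_comm, Finset.sum_comm (s := (Finset.univ : Finset (Fin m))),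
      ← Finset.sum_add_distrib]
    refine Finset.sum_congr rfl fun j _ => ?_
    unfold DS
    rw [Finset.card_filter, Finset.card_filter, add_comm]
  rw [h3]
  have h4 : ∑ j : Fin k, ((DS P false j).card + (DS P true j).card) ≤ k * (m + (k + 9)) := by
    calc _ ≤ ∑ _j : Fin k, (m + (k + 9)) :=
          Finset.sum_le_sum fun j _ => level hm hG hf.1 hf.2.1 j
      _ = _ := by simp
  nlinarith

lemma upper_le (hm : 0 < m) (hk : 0 < k) : upperBroadcast (HG m k) ≤ k * (m + (k + 10)) := by
  unfold upperBroadcast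
  apply csSup_le'
  rintro w ⟨f, hf, rfl⟩
  exact cost_le hm hk hf

end Pool.Agent.Q260.BC
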